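import Pool.Agent.HIP.Stmts

/-!
# Squad HIP, row SBI

Edit of `srb` in `Helper35_HIK/Srb.lean`: the exceptional set has power saving with the exponent `1/4`.
-/

set_option autoImplicit false

namespace Pool.Agent.HIP.H2

open Polynomial NumberField Matrix Pool.Agent.MTL Pool.Agent.MTL.H34 Pool.Agent.Helper78_MT
  Pool.Agent.HIK Pool.Agent.HIP

theorem sbi (hci : HciStmt) : SbiStmt := by
  classical
  intro K _ _ H hH d _ _ ℓ _ ρ hρ
  have hHc : IsClosed (H : Set GT) := Subgroup.isClosed_of_isOpen _ hH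
  have hcH : CompactSpace H := isCompact_iff_compactSpace.1 hHc.isCompact
  have hfin : Finite (K →+* Om) := by
    have h1 : Finite (K →ₐ[ℚ] Om) := inferInstance
    exact Finite.of_injective (fun φ : K →+* Om => φ.toRatAlgHom) (fun a b hab => by
      ext x
      exact DFunLike.congr_fun hab x)
  -- the compact groups
  let Gφ : (K →+* Om) → Subgroup H := fun φ => (Gph φ).comap H.subtype
  have hGc : ∀ φ, IsClosed ((Gφ φ : Subgroup H) : Set H) := fun φ =>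
    (gpfA K φ).2.1.preimage continuous_subtype_val
  have hfr : ∀ φ : K →+* Om, ∃ U : Set (GL d ℚ_[ℓ]), IsOpen U ∧ 1 ∈ U ∧
      ∀ D : Subgroup (GL d ℚ_[ℓ]), IsClosed (D : Set (GL d ℚ_[ℓ])) → D ≤ (Gφ φ).map ρ →
      (∀ g ∈ (Gφ φ).map ρ, ∃ h ∈ D, h⁻¹ * g ∈ U) → D = (Gφ φ).map ρ := by
    intro φ
    refine Pool.Agent.MTL.H33.fra d ℓ ((Gφ φ).map ρ) ?_
    rw [Subgroup.coe_map]
    exact (hGc φ).isCompact.image hρ
  choose U hUo hU1 hU using hfr
  have hV : IsOpen (⋂ φ, U φ) := isOpen_iInter_of_finite hUo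
  have hW : IsOpen (ρ ⁻¹' (⋂ φ, U φ)) := hV.preimage hρ
  have hW' : IsOpen (Subtype.val '' (ρ ⁻¹' (⋂ φ, U φ)) : Set GT) := hH.isOpenMap_subtype_val _ hW
  obtain ⟨N, hN⟩ := ProfiniteGrp.exist_openNormalSubgroup_sub_open_nhds_of_one (G := GT) hW'
    ⟨1, by rw [Set.mem_preimage, map_one]; exact Set.mem_iInter.2 hU1, rfl⟩
  obtain ⟨S, hS, hS2⟩ := hci K N.toSubgroup N.isNormal' N.isOpen'
  refine ⟨S, hS, fun a ha ψ π hπ ρs hsp => ⟨?_, ?_⟩⟩
  · rintro g ⟨τ, rfl⟩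
    obtain ⟨σ, hσ, h1⟩ := τ.2
    exact ⟨⟨σ, hσ⟩, (hsp ⟨σ, hσ⟩ τ h1).symm⟩
  · obtain ⟨φ, -, hφ⟩ := hS2 a ha ψ π hπ
    refine ⟨Gφ φ, ?_, ?_⟩
    · have := (gpfA K φ).2.2
      exact inferInstanceAs ((Gph φ).subgroupOf H).FiniteIndex
    · -- the closed subgroup
      have hD : (Gφ φ ⊓ (decG π).comap H.subtype).map ρ = (Gφ φ).map ρ := by
        apply hU φ
        · rw [Subgroup.coe_map, Subgroup.coe_inf]
          refine (IsClosed.isCompact ?_).image hρ |>.isClosed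
          exact (hGc φ).inter ((decG_closed π).preimage continuous_subtype_val)
        · exact Subgroup.map_mono inf_le_left
        · rintro g ⟨γ, hγ, rfl⟩
          obtain ⟨σ, hσ, hσφ, hσγ⟩ := hφ γ hγ
          obtain ⟨n, hn, hn2⟩ := hN hσγ
          have hσH : σ ∈ H := by
            have h3 : σ = (γ : GT) * (n : GT)⁻¹ := by
              rw [hn2]
              group
            rw [h3]
            exact H.mul_mem γ.2 (H.inv_mem n.2)
          refine ⟨ρ ⟨σ, hσH⟩, Subgroup.mem_map_of_mem _ ⟨hσφ, hσ⟩, ?_⟩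
          rw [← map_inv, ← map_mul]
          have h4 : (⟨σ, hσH⟩ : H)⁻¹ * γ = n := Subtype.ext hn2.symm
          rw [h4]
          exact Set.mem_iInter.1 hn φ
      rintro g ⟨γ, hγ, rfl⟩
      have h5 : ρ γ ∈ (Gφ φ ⊓ (decG π).comap H.subtype).map ρ := by
        rw [hD]
        exact Subgroup.mem_map_of_mem _ hγ
      obtain ⟨σ, ⟨_, hσ⟩, hσ2⟩ := h5
      obtain ⟨τ, hτ⟩ := hσ
      rw [← hσ2]
      exact ⟨⟨τ, σ, σ.2, hτ⟩, hsp σ ⟨τ, σ, σ.2, hτ⟩ hτ⟩

end Pool.Agent.HIP.H2
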